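import Pool.Agent.Helper31.CY.St1

/-!
# Project CY, module TYP: types of points of a rotationally invariant surface
-/

set_option autoImplicit false

open Set Topology Filter

namespace Pool.Agent.Helper63.CY

open Pool.Agent.Helper31.CY

private lemma strictOf {Φ : E3 → E3} {U : Set E3} {p : E3} (hU : IsOpen U) (hp : p ∈ U)
    (hΦ : ContDiffOn ℝ 1 Φ U) : HasStrictFDerivAt Φ (fderiv ℝ Φ p) p :=
  (hΦ.contDiffAt (hU.mem_nhds hp)).hasStrictFDerivAt (by norm_num)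

private lemma equivOf (L : E3 →L[ℝ] E3) (h : ∀ v, v ≠ 0 → L v ≠ 0) :
    ∃ A : E3 ≃L[ℝ] E3, (A : E3 →L[ℝ] E3) = L := by
  have hinj : Function.Injective L.toLinearMap := by
    rw [← LinearMap.ker_eq_bot, LinearMap.ker_eq_bot']
    intro m hm
    by_contra hne
    exact h m hne hm
  refine ⟨(LinearEquiv.ofInjectiveEndo L.toLinearMap hinj).toContinuousLinearEquiv, ?_⟩
  ext v
  rfl

/-- the contingent cone through a chart -/
private lemma tcOf (hTC1 : StTC1) (S : Set E3) (p : E3) (Φ : E3 → E3) (U M : Set E3)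
    (hU : IsOpen U) (hp : p ∈ U) (hΦ : ContDiffOn ℝ 1 Φ U) (h0 : Φ p = 0)
    (hinj : ∀ v, v ≠ 0 → fderiv ℝ Φ p v ≠ 0) (hS : ∀ x ∈ U, x ∈ S ↔ Φ x ∈ M)
    (hM : IsClosed M) (hc : ∀ l : ℝ, 0 ≤ l → ∀ y ∈ M, l • y ∈ M) :
    ∃ A : E3 ≃L[ℝ] E3, (∀ v, A v = fderiv ℝ Φ p v) ∧ ∀ v, v ∈ TCn S p ↔ A v ∈ M := by
  obtain ⟨A, hA⟩ := equivOf (fderiv ℝ Φ p) hinj
  refine ⟨A, fun v => ?_, ?_⟩
  · rw [← hA]
    rfl
  · refine hTC1 E3 E3 S p Φ A M U ?_ h0 (hU.mem_nhds hp) hS hM hc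
    rw [hA]
    exact strictOf hU hp hΦ

private lemma isoInj {L : E3 →L[ℝ] E3} (h : ∀ v, ‖L v‖ = ‖v‖) : ∀ v, v ≠ 0 → L v ≠ 0 := by
  intro v hv h0
  apply hv
  have := h v
  rw [h0, norm_zero] at this
  exact norm_eq_zero.mp this.symm

/-- invariance of the model in the direction of the rotation field -/
private lemma invOf (hROT : StROT) {S : Set E3} (hS : RotInv S) {p : E3} (hp : p ∈ S)
    {M : Set E3} (A : E3 ≃L[ℝ] E3) (hA : ∀ v, v ∈ TCn S p ↔ A v ∈ M) :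
    ∀ u ∈ M, ∀ s : ℝ, u + s • A (Jv p) ∈ M := by
  intro u hu s
  have h1 : A.symm u ∈ TCn S p := by
    rw [hA, A.apply_symm_apply]
    exact hu
  have h2 := (hROT S hS p hp).1 _ h1 s
  rw [hA] at h2
  rw [map_add, map_smul, A.apply_symm_apply] at h2
  exact h2

private lemma half_closed : IsClosed {v : E3 | 0 ≤ v 0 ∧ v 1 = 0} := by
  have c0 : Continuous fun v : E3 => v 0 := by fun_prop
  have c1 : Continuous fun v : E3 => v 1 := by fun_prop
  exact (isClosed_le continuous_const c0).inter (isClosed_eq c1 continuous_const)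

private lemma fderiv_apply (f : E3 → ℝ) (p v : E3) :
    fderiv ℝ f p v = v 0 * D 0 f p + v 1 * D 1 f p + v 2 * D 2 f p := by
  have hv : v = v 0 • bv 0 + v 1 • bv 1 + v 2 • bv 2 := by
    ext i
    fin_cases i <;> simp [bv]
  conv_lhs => rw [hv]
  simp only [map_add, map_smul, smul_eq_mul, D]

theorem hTYP (hTC1 : StTC1) (hTC2 : StTC2) (hROT : StROT) (hMDY : StMDY) (hMDT : StMDT)
    (hNRI : StNRI) : StTYP := by
  intro S hS p hp
  refine ⟨?_, ?_, ?_, ?_, ?_⟩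
  · rintro ⟨Φ, U, hU, hpU, hΦ, h0, hiso, hch⟩
    obtain ⟨A, -, hA⟩ := tcOf hTC1 S p Φ U Tcone hU hpU hΦ h0 (isoInj hiso) hch hMDT.1 hMDT.2.1
    by_cases hax : p 0 = 0 ∧ p 1 = 0
    · exact (hNRI (TCn S p) A (fun v hv θ => (hROT S hS p hp).2 hax.1 hax.2 v hv θ)).2 hA
    · have h1 := hMDT.2.2 (A (Jv p)) (invOf hROT hS hp A hA)
      have h2 : Jv p = 0 := by
        have : A (Jv p) = A 0 := by rw [h1, map_zero]
        exact A.injective this
      apply hax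
      have e0 := congrArg (fun x : E3 => x 0) h2
      have e1 := congrArg (fun x : E3 => x 1) h2
      simp [Jv, pt] at e0 e1
      exact ⟨e1, e0⟩
  · rintro hx hy ⟨Φ, U, hU, hpU, hΦ, h0, hiso, hch⟩
    obtain ⟨A, -, hA⟩ := tcOf hTC1 S p Φ U Ycone hU hpU hΦ h0 (isoInj hiso) hch hMDY.1 hMDY.2.1
    exact (hNRI (TCn S p) A (fun v hv θ => (hROT S hS p hp).2 hx hy v hv θ)).1 hA
  · intro Φ U hU hpU hΦ h0 hiso hch
    obtain ⟨A, hAv, hA⟩ := tcOf hTC1 S p Φ U Ycone hU hpU hΦ h0 (isoInj hiso) hch hMDY.1 hMDY.2.1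
    have h1 := hMDY.2.2.1 (A (Jv p)) (invOf hROT hS hp A hA)
    rw [hAv] at h1
    exact h1
  · intro Φ U hU hpU hΦ h0 hinj hch
    obtain ⟨A, hAv, hA⟩ := tcOf hTC1 S p Φ U {v : E3 | 0 ≤ v 0 ∧ v 1 = 0} hU hpU hΦ h0 hinj hch
      half_closed (by
        rintro l hl y ⟨hy0, hy1⟩
        refine ⟨?_, ?_⟩
        · simpa using mul_nonneg hl hy0
        · simp [hy1])
    have h1 := invOf hROT hS hp A hA 0 (by simp)
    have hp1 := h1 1
    have hm1 := h1 (-1)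
    rw [hAv] at hp1 hm1
    simp only [zero_add, one_smul, mem_ofPred_eq, neg_smul, PiLp.neg_apply] at hp1 hm1
    exact ⟨le_antisymm (by linarith [hm1.1]) hp1.1, hp1.2⟩
  · intro f U hU hpU hf hne hch hx hy
    have hfp : f p = 0 := (hch p hpU).mp hp
    have hT := hTC2 S p f U hU hpU hf hne hfp hch
    have hrot := (hROT S hS p hp).2 hx hy
    set a := D 0 f p with ha
    set b := D 1 f p with hb
    have hv : pt (-b) a 0 ∈ TCn S p := by
      rw [hT, fderiv_apply, ← ha, ← hb]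
      simp [pt]
      ring
    have h2 := hrot _ hv (Real.pi / 2)
    rw [hT, fderiv_apply, ← ha, ← hb] at h2
    simp [rot, pt] at h2
    have h3 : a ^ 2 + b ^ 2 = 0 := by nlinarith
    constructor <;> nlinarith [sq_nonneg a, sq_nonneg b]

end Pool.Agent.Helper63.CY
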